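import Pool.Agent.helper88.T8.Spec

/-!
# T8 (MP_16912e_nt), row TN8: the second local inequality
-/

set_option autoImplicit false

namespace Pool.Agent.T8

open Finset NumberField Pool.Agent.helper3.FT Pool.Agent.helper47.RA Pool.Agent.T5 Pool.Agent.T6 Pool.Agent.T7
open scoped nonZeroDivisors

/-- the local factor of the left side -/
noncomputable def TN8_F (C : ℝ) (d : ℕ) (Sr Sy : Finset ℕ) (p : ℕ) : ℝ :=
  (if p ∈ Sy then C else 1) * ((mc d Sr Sy p : ℝ) / (if p ∈ Sy then (p : ℝ) else 1)) /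
    ((mr Sr p : ℝ) ^ 2 * (ms d Sr Sy p : ℝ) ^ 2)

theorem TN8_aux (p : ℕ) (e e' f : ℕ) (A B : ℝ) (hp : 2 ≤ p)
    (hA : 0 ≤ A) (hB : A ≤ B) (he : e ≤ e' + f) :
    A * (p : ℝ) ^ e / (p : ℝ) ^ e' ≤ B * (p : ℝ) ^ f := by
  have hp0 : (0 : ℝ) < p := by exact_mod_cast (by omega : 0 < p)
  have hp1 : (1 : ℝ) ≤ p := by exact_mod_cast (by omega : 1 ≤ p)
  rw [div_le_iff₀ (by positivity), mul_assoc, ← pow_add]
  exact mul_le_mul hB (pow_le_pow_right₀ hp1 (by omega)) (by positivity) (hA.trans hB)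

theorem TN8_loc (C : ℝ) (d : ℕ) (Sr Sy : Finset ℕ) (hC : 1 ≤ C) (hdis : Disjoint Sr Sy)
    (hSr : ∀ p ∈ Sr, p ≠ 2 ∧ d.factorization p ≤ 2) (p : ℕ) (hp : p ∈ d.primeFactors) :
    TN8_F C d Sr Sy p ≤ hh (12 * C) p (d.factorization p) := by
  have hpp : p.Prime := Nat.prime_of_mem_primeFactors hp
  have hp2 : 2 ≤ p := hpp.two_le
  have hp0 : (0 : ℝ) < p := by exact_mod_cast hpp.pos
  have ha : 1 ≤ d.factorization p := by
    have h1 := Nat.mem_primeFactors.1 hp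
    exact (hpp.dvd_iff_one_le_factorization h1.2.2).1 h1.2.1
  unfold TN8_F hh mc mr ms
  set a := d.factorization p with hadef
  have ha0 : (0 : ℝ) ≤ (a : ℝ) + 1 := by positivity
  have ha1 : (1 : ℝ) ≤ (a : ℝ) := by exact_mod_cast ha
  by_cases h1 : p ∈ Sr
  · have h2 : p ∉ Sy := Finset.disjoint_left.1 hdis h1
    have h3 := (hSr p h1).2
    rw [← hadef] at h3
    simp only [if_pos h1, if_neg h2, if_neg (show ¬ 3 ≤ a by omega)]
    push_cast
    have h5 : 1 * (3 * (p : ℝ) ^ 2 / 1) / ((p : ℝ) ^ 2 * 1 ^ 2) = 3 * (p : ℝ) ^ 2 / (p : ℝ) ^ 2 := by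
      rw [one_mul, div_one, one_pow, mul_one]
    rw [h5]
    exact TN8_aux p 2 2 0 3 _ hp2 (by norm_num) (by nlinarith) (by omega)
  · simp only [if_neg h1]
    by_cases h2 : p ∈ Sy
    · have h3 : p ∈ Sy ∨ p = 2 ∨ 3 ≤ a := Or.inl h2
      simp only [if_pos h2, if_pos h3]
      push_cast
      have h5 : C * (2 * ((a : ℝ) + 1) * (p : ℝ) ^ (2 * a + a / 2) / (p : ℝ)) /
          (1 ^ 2 * ((p : ℝ) ^ a) ^ 2) =
          (2 * C * ((a : ℝ) + 1)) * (p : ℝ) ^ (2 * a + a / 2) / (p : ℝ) ^ (1 + a * 2) := by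
        rw [← pow_mul, pow_add _ 1 (a * 2), pow_one]
        field_simp
      rw [h5]
      refine TN8_aux p _ _ _ _ _ hp2 (by positivity) (by nlinarith) ?_
      split_ifs <;> omega
    · by_cases h3 : p = 2 ∨ 3 ≤ a
      · have h4 : p ∈ Sy ∨ p = 2 ∨ 3 ≤ a := Or.inr h3
        simp only [if_neg h2, if_pos h4]
        push_cast
        have h5 : 1 * (2 * ((a : ℝ) + 1) * (p : ℝ) ^ (2 * a + a / 2) / 1) /
            (1 ^ 2 * ((p : ℝ) ^ a) ^ 2) =
            (2 * ((a : ℝ) + 1)) * (p : ℝ) ^ (2 * a + a / 2) / (p : ℝ) ^ (a * 2) := by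
          rw [← pow_mul]
          field_simp
        rw [h5]
        by_cases h6 : 3 ≤ a
        · simp only [if_pos h6]
          exact TN8_aux p _ _ _ _ _ hp2 (by positivity) (by nlinarith) (by omega)
        · have h7 : p = 2 := by
            rcases h3 with h | h
            · exact h
            · exact absurd h h6
          simp only [if_neg h6]
          have h8 : (2 * ((a : ℝ) + 1)) * (p : ℝ) ^ (2 * a + a / 2) / (p : ℝ) ^ (a * 2) ≤
              (2 * ((a : ℝ) + 1)) * (p : ℝ) ^ 1 := TN8_aux p _ _ _ _ _ hp2 (by positivity) le_rfl (by omega)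
          refine h8.trans ?_
          rw [h7]
          push_cast
          nlinarith
      · have h4 : ¬ (p ∈ Sy ∨ p = 2 ∨ 3 ≤ a) := by
          rintro (h | h)
          · exact h2 h
          · exact h3 h
        have h6 : ¬ 3 ≤ a := fun h => h3 (Or.inr h)
        simp only [if_neg h2, if_neg h4, if_neg h6]
        push_cast
        have h5 : 1 * (12 * (p : ℝ) / 1) / (1 ^ 2 * (p : ℝ) ^ 2) = 12 * (p : ℝ) ^ 1 / (p : ℝ) ^ 2 := by
          rw [one_mul, div_one, one_pow, one_mul, pow_one]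
        rw [h5]
        exact TN8_aux p _ _ _ _ _ hp2 (by norm_num) (by nlinarith) (by omega)

theorem TN8_ite (T Sy : Finset ℕ) (h : Sy ⊆ T) (f : ℕ → ℝ) :
    ∏ p ∈ Sy, f p = ∏ p ∈ T, (if p ∈ Sy then f p else 1) := by
  rw [Finset.prod_ite_mem, Finset.inter_eq_right.2 h]

theorem TN8 : TN8_stmt := by
  intro C d Sr Sy hC _ _ hSy hdis hSr
  have h1 : C ^ Sy.card * ((∏ p ∈ d.primeFactors, (mc d Sr Sy p : ℝ)) / (∏ p ∈ Sy, (p : ℝ))) /
      ((∏ p ∈ d.primeFactors, (mr Sr p : ℝ)) ^ 2 *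
        (∏ p ∈ d.primeFactors, (ms d Sr Sy p : ℝ)) ^ 2) =
      ∏ p ∈ d.primeFactors, TN8_F C d Sr Sy p := by
    unfold TN8_F
    rw [Finset.prod_div_distrib, Finset.prod_mul_distrib, Finset.prod_mul_distrib,
      Finset.prod_div_distrib, Finset.prod_pow, Finset.prod_pow,
      ← TN8_ite _ _ hSy (fun _ => C), ← TN8_ite _ _ hSy (fun p => (p : ℝ)), Finset.prod_const]
  rw [h1]
  refine Finset.prod_le_prod (fun p _ => ?_) (fun p hp => TN8_loc C d Sr Sy hC hdis hSr p hp)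
  unfold TN8_F
  have h2 : (0 : ℝ) ≤ if p ∈ Sy then C else 1 := by
    split_ifs
    · linarith
    · norm_num
  have h3 : (0 : ℝ) ≤ if p ∈ Sy then (p : ℝ) else 1 := by
    split_ifs
    · exact Nat.cast_nonneg _
    · norm_num
  exact div_nonneg (mul_nonneg h2 (div_nonneg (Nat.cast_nonneg _) h3)) (by positivity)

end Pool.Agent.T8
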